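import Pool.Agent.Helper23_LAP.Stmts

set_option autoImplicit false

namespace Pool.Agent.LAP.H93

open scoped Classical

theorem avd : AVDStmt := by
  intro U S _ _ _ O s
  have hS : 0 < Fintype.card S := Fintype.card_pos
  have hS' : (0 : ℝ) < Fintype.card S := by exact_mod_cast hS
  obtain ⟨A, hA⟩ : ∃ A : Set (U → S), A = {ω : U → S | ∀ u ∈ O, ω u ≠ s u} := ⟨_, rfl⟩
  rw [← hA]
  have hmA : ∀ ω, ω ∈ A ↔ ∀ u ∈ O, ω u ≠ s u := fun ω => by rw [hA]; exact Iff.rfl
  have hfil : (Finset.univ.filter fun ω : U → S => ω ∈ A) =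
      Fintype.piFinset (fun u => if u ∈ O then Finset.univ.erase (s u) else Finset.univ) := by
    ext ω
    simp only [Finset.mem_filter, Finset.mem_univ, true_and,
      Fintype.mem_piFinset, hmA]
    constructor
    · intro h u
      by_cases hu : u ∈ O
      · rw [if_pos hu]
        exact Finset.mem_erase.mpr ⟨h u hu, Finset.mem_univ _⟩
      · rw [if_neg hu]
        exact Finset.mem_univ _
    · intro h u hu
      have := h u
      rw [if_pos hu] at this
      exact (Finset.mem_erase.mp this).1
  have hpr : pr A =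
      (1 - 1 / (Fintype.card S : ℝ)) ^ O.card := by
    unfold pr
    rw [hfil, Fintype.card_piFinset, Fintype.card_fun, Nat.cast_prod, Nat.cast_pow,
      ← Finset.card_univ (α := U), ← Finset.prod_const, ← Finset.prod_div_distrib]
    have : ∀ u ∈ (Finset.univ : Finset U), (((if u ∈ O then Finset.univ.erase (s u)
        else Finset.univ : Finset S).card : ℕ) : ℝ) / (Fintype.card S : ℝ) =
        if u ∈ O then (1 - 1 / (Fintype.card S : ℝ)) else 1 := by
      intro u _
      by_cases hu : u ∈ O
      · rw [if_pos hu, if_pos hu, Finset.card_erase_of_mem (Finset.mem_univ _), Finset.card_univ,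
          Nat.cast_sub (by omega)]
        field_simp
        simp
      · rw [if_neg hu, if_neg hu, Finset.card_univ]
        field_simp
    rw [Finset.prod_congr rfl this, Finset.prod_ite]
    simp
  rw [hpr]
  have h1 : 1 - 1 / (Fintype.card S : ℝ) ≤ Real.exp (-(1 / (Fintype.card S : ℝ))) := by
    have := Real.add_one_le_exp (-(1 / (Fintype.card S : ℝ)))
    linarith
  have h0 : 0 ≤ 1 - 1 / (Fintype.card S : ℝ) := by
    have : 1 / (Fintype.card S : ℝ) ≤ 1 := by
      rw [div_le_one hS']
      exact_mod_cast hS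
    linarith
  calc (1 - 1 / (Fintype.card S : ℝ)) ^ O.card
      ≤ Real.exp (-(1 / (Fintype.card S : ℝ))) ^ O.card := pow_le_pow_left₀ h0 h1 _
    _ = Real.exp (-((O.card : ℝ) / (Fintype.card S : ℝ))) := by
        rw [← Real.exp_nat_mul]
        congr 1
        ring

end Pool.Agent.LAP.H93
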