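import Pool.Agent.Helper23_LAP.Stmts
import Pool.Agent.Helper13_Conc.Linked

set_option autoImplicit false

namespace Pool.Agent.LAP.H93

open scoped Classical

/-- the simple graph of a symmetric relation -/
def grp {W : Type} (r : W → W → Prop) (hr : ∀ u v, r u v → r v u) : SimpleGraph W where
  Adj u v := u ≠ v ∧ r u v
  symm := ⟨fun u v h => ⟨h.1.symm, hr u v h.2⟩⟩
  loopless := ⟨fun _ h => h.1 rfl⟩

theorem grp_reach {W : Type} (r : W → W → Prop) (hr : ∀ u v, r u v → r v u) (Z : Finset W)
    (u : W) (hu : u ∈ Z) (v : W)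
    (h : Relation.ReflTransGen (fun a b => b ∈ Z ∧ r a b) u v) (hv : v ∈ Z) :
    ((grp r hr).induce (Z : Set W)).Reachable ⟨u, hu⟩ ⟨v, hv⟩ := by
  induction h with
  | refl => exact SimpleGraph.Reachable.refl _
  | @tail b c hb hbc ih =>
    have hbZ : b ∈ Z := by
      rcases Relation.ReflTransGen.cases_tail hb with rfl | ⟨d, -, hd⟩
      · exact hu
      · exact hd.1
    refine (ih hbZ).trans ?_
    by_cases hbc' : b = c
    · subst hbc'
      exact SimpleGraph.Reachable.refl _
    · exact SimpleGraph.Adj.reachable (show (grp r hr).Adj b c from ⟨hbc', hbc.2⟩)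

theorem cnt : CNTStmt := by
  intro W _ r d s w hr hd hdeg
  rcases Nat.eq_zero_or_pos s with rfl | hs
  · have : (Finset.univ.filter fun Z : Finset W => w ∈ Z ∧ Z.card = 0 ∧ Con r Z) = ∅ := by
      ext Z
      simp only [Finset.mem_filter, Finset.mem_univ, true_and, Finset.notMem_empty, iff_false]
      rintro ⟨h1, h2, -⟩
      rw [Finset.card_eq_zero] at h2
      rw [h2] at h1
      exact Finset.notMem_empty _ h1
    rw [this]
    simp
  · obtain ⟨n, rfl⟩ : ∃ n, s = n + 1 := ⟨s - 1, by omega⟩
    have h := Pool.Agent.Helper13_Conc.linked_count (grp r hr)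
      (fun x => Finset.univ.filter (r x)) (d := d)
      (fun x y hxy => by
        rw [Finset.mem_filter]
        exact ⟨Finset.mem_univ _, hxy.2⟩) hdeg n w
      (Finset.univ.filter fun Z : Finset W => w ∈ Z ∧ Z.card = n + 1 ∧ Con r Z)
      (fun S hS => by
        rw [Finset.mem_filter] at hS
        refine ⟨hS.2.1, hS.2.2.1, ?_⟩
        rintro ⟨u, hu⟩ ⟨v, hv⟩
        exact grp_reach r hr S u hu v (hS.2.2.2.2 u hu v hv) hv)
    exact h.trans (Nat.pow_le_pow_right hd (by omega))

end Pool.Agent.LAP.H93
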